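import Pool.Agent.Q32.HypChain

/-!
# MP_484ff1_al: finitely generated groups with uncountable chains of quasi-parabolic structures

Every group `G` that maps onto `ℤ ≀ ℤ` has a chain in `H_qp(G)` with the order type of the real
line.  In particular this holds for every free group of finite rank `n ≥ 2`.
-/

namespace Pool.Agent.Results.MP_484ff1_al.FreeGroupChain

open Q32.Hyp

theorem mkW_mul (f g : ℤ →₀ ℤ) (m n : ℤ) : mkW f m * mkW g n = mkW (f + sh m g) (m + n) := rfl

theorem mkW_zero_zpow (n : ℤ) : (mkW 0 1) ^ n = mkW 0 n := by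
  obtain ⟨k, rfl | rfl⟩ := n.eq_nat_or_neg
  · have := lamp_pow_t (t := mkW 0 1) rfl rfl k
    rw [zpow_natCast]
    exact ext_W this.1 this.2
  · have := lamp_pow_t (t := mkW 0 1) rfl rfl k
    rw [zpow_neg, zpow_natCast]
    refine ext_W ?_ ?_
    · rw [lamp_inv, this.1, map_zero, neg_zero]; rfl
    · rw [ht_inv, this.2]; rfl

theorem mkW_lamp_pow (f : ℤ →₀ ℤ) (k : ℕ) : (mkW f 0) ^ k = mkW (k • f) 0 := by
  induction k with
  | zero => rw [pow_zero, zero_smul]; rfl
  | succ k ih => rw [pow_succ, ih, mkW_mul, sh_zero, add_zero, succ_nsmul]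

theorem mkW_lamp_zpow (f : ℤ →₀ ℤ) (n : ℤ) : (mkW f 0) ^ n = mkW (n • f) 0 := by
  obtain ⟨k, rfl | rfl⟩ := n.eq_nat_or_neg
  · rw [zpow_natCast, mkW_lamp_pow, natCast_zsmul]
  · rw [zpow_neg, zpow_natCast, mkW_lamp_pow, neg_zsmul, natCast_zsmul]
    refine ext_W ?_ ?_
    · rw [lamp_inv, ht_mk, neg_zero, sh_zero]; rfl
    · rw [ht_inv]; rfl

theorem mkW_inv (f : ℤ →₀ ℤ) (n : ℤ) : (mkW f n)⁻¹ = mkW (-sh (-n) f) (-n) :=
  ext_W (lamp_inv _) (ht_inv _)

/-- `ℤ ≀ ℤ` is generated by the shift and one lamp. -/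
theorem generate (K : Subgroup ZwrZ) (h1 : mkW 0 1 ∈ K) (h2 : mkW (Finsupp.single 0 1) 0 ∈ K)
    (g : ZwrZ) : g ∈ K := by
  have hs : ∀ n : ℤ, mkW 0 n ∈ K := fun n => by
    rw [← mkW_zero_zpow]; exact K.zpow_mem h1 n
  have hl : ∀ i c : ℤ, mkW (Finsupp.single i c) 0 ∈ K := by
    intro i c
    have h3 : mkW (Finsupp.single 0 c) 0 ∈ K := by
      have := K.zpow_mem h2 c
      rw [mkW_lamp_zpow, Finsupp.smul_single, smul_eq_mul, mul_one] at this
      exact this
    have h4 : mkW (Finsupp.single i c) 0 = mkW 0 i * mkW (Finsupp.single 0 c) 0 * mkW 0 (-i) := by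
      rw [mkW_mul, mkW_mul, map_zero, zero_add, add_zero, add_zero, add_neg_cancel]
      congr 1
      ext j
      rw [sh_apply, Finsupp.single_apply, Finsupp.single_apply]
      by_cases h : i = j
      · rw [if_pos h, if_pos (by omega)]
      · rw [if_neg h, if_neg (by omega)]
    rw [h4]
    exact K.mul_mem (K.mul_mem (hs _) h3) (hs _)
  have hf : ∀ f : ℤ →₀ ℤ, mkW f 0 ∈ K := by
    intro f
    induction f using Finsupp.induction with
    | zero => exact hs 0
    | single_add i c f _ _ ih =>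
      have : mkW (Finsupp.single i c + f) 0 = mkW (Finsupp.single i c) 0 * mkW f 0 := by
        rw [mkW_mul, sh_zero, add_zero]
      rw [this]
      exact K.mul_mem (hl i c) ih
  have : g = mkW (lamp g) 0 * mkW 0 (ht g) := by
    rw [mkW_mul, map_zero, add_zero, zero_add]
    exact ext_W rfl rfl
  rw [this]
  exact K.mul_mem (hf _) (hs _)

/-- For every `n ≥ 2` the poset `H_qp(F_n)` of the (finitely generated) free group of rank `n`
contains a chain with the order type of the real line, hence an uncountable chain. -/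
theorem result (n : ℕ) (hn : 2 ≤ n) :
    Group.FG (FreeGroup (Fin n)) ∧
    ∃ f : ℝ → Classes (FreeGroup (Fin n)), StrictMono f ∧ (∀ r, f r ∈ Hqp (FreeGroup (Fin n))) ∧
      IsChain (· ≤ ·) (Set.range f) ∧ ¬ (Set.range f).Countable := by
  refine ⟨inferInstance, ?_⟩
  let π : FreeGroup (Fin n) →* ZwrZ :=
    FreeGroup.lift fun i => if i.1 = 0 then mkW 0 1 else mkW (Finsupp.single 0 1) 0
  have hπ : Function.Surjective π := by
    intro g
    refine generate π.range ?_ ?_ g
    · exact ⟨FreeGroup.of ⟨0, by omega⟩, by simp [π]⟩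
    · exact ⟨FreeGroup.of ⟨1, by omega⟩, by simp [π]⟩
  obtain ⟨f, hf, hq⟩ := exists_chain hπ
  refine ⟨f, hf, hq, ?_, ?_⟩
  · rintro _ ⟨r, rfl⟩ _ ⟨s, rfl⟩ _
    rcases le_total r s with h | h
    · exact Or.inl (hf.monotone h)
    · exact Or.inr (hf.monotone h)
  · intro hc
    have := hc.to_subtype
    have hcount : Countable ℝ :=
      Function.Injective.countable (f := Set.rangeFactorization f)
        (fun _ _ h => hf.injective (Subtype.ext_iff.1 h))
    exact not_countable hcount

end Pool.Agent.Results.MP_484ff1_al.FreeGroupChain
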